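import Pool.Agent.Helper83.SG8

/-!
# No strong Gurarii space has a strong limit density of countable cofinality

In particular there is no strong Gurarii space of density `ℵ_ω` in any model of set theory in
which `ℵ_ω` is a strong limit cardinal (for instance under GCH, where the continuum is `ℵ₁`,
hence below `ℵ_ω`); and, in ZFC, there is none of density `ℶ_ω`.
-/

namespace Pool.Agent.Results.MP_270a30_an.NoStrongLimitDensity

open Cardinal Ordinal Pool.Agent.Helper83.SG

universe u

/-- If a strong Gurarii space `V` has density `μ` of countable cofinality, then `μ < 2 ^ κ` for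
some cardinal `κ < μ`; that is, `μ` is not a strong limit cardinal. -/
theorem result (V : Type u) [NormedAddCommGroup V] [NormedSpace ℝ V] [CompleteSpace V]
    (hV : IsStrongGurarii V) (hcof : (density V).ord.cof = ℵ₀) :
    ∃ κ < density V, density V < 2 ^ κ :=
  main_theorem hV hcof

/-- The instance asked for: if `2 ^ ℵ_n < ℵ_ω` for all `n` (as under GCH), then the continuum is
below `ℵ_ω` and no strong Gurarii space has density `ℵ_ω`. -/
theorem no_aleph_omega (h : ∀ n : ℕ, (2 : Cardinal.{u}) ^ ℵ_ (n : Ordinal.{u}) < ℵ_ ω) :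
    (𝔠 : Cardinal.{u}) < ℵ_ ω ∧ ∀ (V : Type u) [NormedAddCommGroup V] [NormedSpace ℝ V]
      [CompleteSpace V], IsStrongGurarii V → density V ≠ ℵ_ ω := by
  constructor
  · have := h 0
    rwa [Nat.cast_zero, aleph_zero, two_power_aleph0] at this
  · intro V _ _ _ hV hd
    have hcof : (density V).ord.cof = ℵ₀ := by
      rw [hd, ord_aleph, cof_omega (isSuccLimit_omega0)]
      exact cof_omega0
    obtain ⟨κ, hκ, hκ2⟩ := result V hV hcof
    rw [hd] at hκ hκ2
    obtain ⟨n, hn⟩ : ∃ n : ℕ, κ ≤ ℵ_ (n : Ordinal.{u}) := by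
      rw [aleph_limit isSuccLimit_omega0] at hκ
      obtain ⟨⟨o, ho⟩, ho2⟩ := exists_lt_of_lt_ciSup' hκ
      obtain ⟨n, rfl⟩ := lt_omega0.mp ho
      exact ⟨n, ho2.le⟩
    exact absurd (hκ2.trans_le (power_le_power_left two_ne_zero hn)) (not_lt.mpr (h n).le)

/-- In ZFC: no strong Gurarii space has density `ℶ_ω`. -/
theorem no_beth_omega (V : Type u) [NormedAddCommGroup V] [NormedSpace ℝ V]
    [CompleteSpace V] (hV : IsStrongGurarii V) : density V ≠ ℶ_ ω := by
  intro hd
  have hlim : (ℶ_ (ω : Ordinal.{u})).IsStrongLimit :=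
    isStrongLimit_beth.mpr isSuccLimit_omega0.isSuccPrelimit
  have hcof : (density V).ord.cof = ℵ₀ := by
    rw [hd]
    have h1 : Order.IsNormal (fun o : Ordinal.{u} => (ℶ_ o).ord) :=
      isNormal_ord.comp isNormal_beth
    rw [show (ℶ_ (ω : Ordinal.{u})).ord = (fun o : Ordinal.{u} => (ℶ_ o).ord) ω from rfl,
      cof_map_of_isNormal h1 isSuccLimit_omega0]
    exact cof_omega0
  obtain ⟨κ, hκ, hκ2⟩ := result V hV hcof
  rw [hd] at hκ hκ2
  exact absurd (hlim.isStrongPrelimit hκ) (not_lt.mpr hκ2.le)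

end Pool.Agent.Results.MP_270a30_an.NoStrongLimitDensity
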